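import Mathlib

open MeasureTheory Filter Topology unitInterval

namespace Pool.Agent.Results.MP_ae49d3_an.No

/-- Fourier coefficient `a_n = ∫ f φ_n / ∫ φ_n²` (Lebesgue measure on `[0,1]`). -/
noncomputable def coef (φ : ℕ → C(I, ℝ)) (f : C(I, ℝ)) (n : ℕ) : ℝ :=
  (∫ x, f x * φ n x) / ∫ x, φ n x * φ n x

/-- The sum of the first `N + 1` terms of the expansion of `f`. -/
noncomputable def S (φ : ℕ → C(I, ℝ)) (f : C(I, ℝ)) (N : ℕ) : C(I, ℝ) :=
  ∑ n ∈ Finset.range (N + 1), coef φ f n • φ n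

/-- The expansion of `f` is uniformly summable to `f` by the matrix `c`; convergence in
`C(I, ℝ)` is uniform convergence on `[0,1]`. -/
def USummable (φ : ℕ → C(I, ℝ)) (c : ℕ → ℕ → ℝ) (f : C(I, ℝ)) : Prop :=
  ∃ τ : ℕ → C(I, ℝ),
    (∀ m, Tendsto (fun K => ∑ N ∈ Finset.range K, c m N • S φ f N) atTop (𝓝 (τ m))) ∧
    Tendsto τ atTop (𝓝 f)

noncomputable def J : C(I, ℝ) →L[ℝ] Lp ℝ 2 (volume : Measure I) := ContinuousMap.toLp 2 volume ℝ

lemma openPos : (volume : Measure I).IsOpenPosMeasure := ⟨fun U hU hne => by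
  obtain ⟨a, b, hab, h⟩ := hU.exists_Ioo_subset hne
  refine ne_of_gt (lt_of_lt_of_le ?_ (measure_mono h))
  rw [unitInterval.volume_Ioo, ENNReal.ofReal_pos, sub_pos]
  exact hab⟩

lemma J_inj : Function.Injective J :=
  haveI := openPos
  ContinuousMap.toLp_injective _

lemma inner_J (f g : C(I, ℝ)) : inner ℝ (J f) (J g) = ∫ x, f x * g x := by
  unfold J
  rw [ContinuousMap.inner_toLp]
  simp [mul_comm]

lemma J_pos {f : C(I, ℝ)} (h : f ≠ 0) : 0 < ‖J f‖ :=
  norm_pos_iff.2 fun h0 => h (J_inj (by rw [h0, map_zero]))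

lemma base (η : ℝ) (hη : 0 < η) : ∃ s : C(I, ℝ), s 0 = 1 ∧ ‖J s‖ < η := by
  let b : C(I, ℝ) := ⟨fun x => 1 - (x : ℝ), by fun_prop⟩
  have hb : ∀ x, 0 ≤ b x ∧ b x ≤ 1 := fun x => ⟨sub_nonneg.2 x.2.2, sub_le_self _ x.2.1⟩
  have h1 : Tendsto (fun n : ℕ => ∫ x, (b ^ n) x * (b ^ n) x) atTop (𝓝 (∫ _ : I, (0 : ℝ))) := by
    refine tendsto_integral_of_dominated_convergence (fun _ => 1) (fun n => ?_) (integrable_const _)
      (fun n => ae_of_all _ fun x => ?_) ?_
    · exact ((b ^ n).continuous.mul (b ^ n).continuous).aestronglyMeasurable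
    · simp only [ContinuousMap.pow_apply, Real.norm_eq_abs]
      rw [abs_of_nonneg (by have := (hb x).1; positivity)]
      have := pow_le_one₀ (n := n) (hb x).1 (hb x).2
      have := pow_nonneg (hb x).1 n
      nlinarith
    · have : ∀ᵐ x : I, x ≠ 0 := by
        simp [ae_iff]
      filter_upwards [this] with x hx
      have h2 : b x < 1 := by
        have : (0 : ℝ) < x := lt_of_le_of_ne x.2.1 fun h => hx (Subtype.ext h.symm)
        exact sub_lt_self _ this
      have := tendsto_pow_atTop_nhds_zero_of_lt_one (hb x).1 h2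
      simpa using this.mul this
  rw [integral_zero] at h1
  obtain ⟨n, hn⟩ := (h1.eventually (gt_mem_nhds (show 0 < η ^ 2 by positivity))).exists
  refine ⟨b ^ n, by simp [b], ?_⟩
  rw [← inner_J, real_inner_self_eq_norm_sq] at hn
  exact lt_of_pow_lt_pow_left₀ 2 hη.le hn

lemma spike (T : Finset C(I, ℝ)) : ∀ η : ℝ, 0 < η →
    ∃ s : C(I, ℝ), s 0 = 1 ∧ ‖J s‖ < η ∧ ∀ g ∈ T, inner ℝ (J g) (J s) = 0 := by
  classical
  induction T using Finset.induction_on with
  | empty =>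
    intro η hη
    obtain ⟨s, h1, h2⟩ := base η hη
    exact ⟨s, h1, h2, by simp⟩
  | insert g T _ ih =>
    intro η hη
    by_cases h : ∃ w : C(I, ℝ), w 0 = 0 ∧ (∀ g ∈ T, inner ℝ (J g) (J w) = 0) ∧
        inner ℝ (J g) (J w) ≠ 0
    · obtain ⟨w, h1, h2, h3⟩ := h
      set M := ‖J g‖ * ‖J w‖ / |inner ℝ (J g) (J w)| with hM
      have hM0 : 0 ≤ M := by positivity
      obtain ⟨s, s1, s2, s3⟩ := ih (η / (1 + M)) (by positivity)
      refine ⟨s - (inner ℝ (J g) (J s) / inner ℝ (J g) (J w)) • w, by simp [h1, s1], ?_, ?_⟩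
      · rw [map_sub, map_smul]
        refine (norm_sub_le _ _).trans_lt ?_
        rw [norm_smul, norm_div, Real.norm_eq_abs, Real.norm_eq_abs]
        have h4 := abs_real_inner_le_norm (J g) (J s)
        have h5 : |inner ℝ (J g) (J s)| / |inner ℝ (J g) (J w)| * ‖J w‖ ≤ ‖J s‖ * M := by
          calc _ ≤ ‖J g‖ * ‖J s‖ / |inner ℝ (J g) (J w)| * ‖J w‖ := by gcongr
            _ = _ := by rw [hM]; ring
        rw [lt_div_iff₀ (by positivity)] at s2
        linarith
      · intro g' hg'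
        rw [map_sub, map_smul, inner_sub_right, inner_smul_right]
        rcases Finset.mem_insert.1 hg' with rfl | hg'
        · field_simp; ring
        · rw [s3 g' hg', h2 g' hg']; ring
    · push Not at h
      obtain ⟨s, s1, s2, s3⟩ := ih η hη
      refine ⟨s, s1, s2, fun g' hg' => ?_⟩
      rcases Finset.mem_insert.1 hg' with rfl | hg'
      · refine abs_nonpos_iff.1 (le_of_forall_pos_le_add fun ε hε => ?_)
        obtain ⟨t, t1, t2, t3⟩ := ih (ε / (‖J g'‖ + 1)) (by positivity)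
        have h4 := h (s - t) (by simp [s1, t1]) fun g hg => by
          rw [map_sub, inner_sub_right, s3 g hg, t3 g hg, sub_zero]
        rw [map_sub, inner_sub_right, sub_eq_zero] at h4
        rw [h4, zero_add]
        refine (abs_real_inner_le_norm _ _).trans ?_
        rw [lt_div_iff₀ (by positivity)] at t2
        nlinarith [norm_nonneg (J t)]
      · exact s3 g' hg'

lemma flat (T : Finset C(I, ℝ)) :
    ∃ w : C(I, ℝ), w 0 = 0 ∧ w ≠ 0 ∧ ∀ g ∈ T, inner ℝ (J g) (J w) = 0 := by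
  obtain ⟨s, s1, -, s3⟩ := spike T 1 one_pos
  have hs : s ≠ 0 := by rintro rfl; simp at s1
  obtain ⟨t, t1, t2, t3⟩ := spike T _ (J_pos hs)
  refine ⟨s - t, by simp [s1, t1], fun h => ?_, fun g hg => ?_⟩
  · rw [sub_eq_zero.1 h] at t2; exact lt_irrefl _ t2
  · rw [map_sub, inner_sub_right, s3 g hg, t3 g hg, sub_zero]

lemma proj (T : Finset C(I, ℝ)) (g : C(I, ℝ)) :
    ∃ p ∈ Submodule.span ℝ (T : Set C(I, ℝ)), ∀ t ∈ T, inner ℝ (J t) (J (g - p)) = 0 := by
  let K := (Submodule.span ℝ (T : Set C(I, ℝ))).map J.toLinearMap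
  have : FiniteDimensional ℝ (Submodule.span ℝ (T : Set C(I, ℝ))) :=
    FiniteDimensional.span_of_finite ℝ T.finite_toSet
  have : FiniteDimensional ℝ K := Module.Finite.map _ _
  obtain ⟨p, hp, hp2⟩ := K.starProjection_apply_mem (J g)
  refine ⟨p, hp, fun t ht => ?_⟩
  have h1 := K.sub_starProjection_mem_orthogonal (J g)
  rw [map_sub]
  have h2 : J p = K.starProjection (J g) := hp2
  rw [h2]
  exact Submodule.inner_right_of_mem_orthogonal (K := K) ⟨t, Submodule.subset_span ht, rfl⟩ h1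

lemma step (T : Finset C(I, ℝ)) (g : C(I, ℝ)) (ε : ℝ) : ∃ u v : C(I, ℝ), u ≠ 0 ∧ v ≠ 0 ∧
    inner ℝ (J u) (J v) = 0 ∧ (∀ t ∈ T, inner ℝ (J t) (J u) = 0 ∧ inner ℝ (J t) (J v) = 0) ∧
    u 0 = 0 ∧ inner ℝ (J 1) (J v) = 0 ∧
    (0 < ε → ∃ p ∈ Submodule.span ℝ (T : Set C(I, ℝ)), ∃ ρ : ℝ, ‖g - (p + u + ρ • v)‖ < ε) := by
  classical
  wlog hε : 0 < ε generalizing ε
  · obtain ⟨u, v, h1, h2, h3, h4, h5, h6, -⟩ := this 1 one_pos
    exact ⟨u, v, h1, h2, h3, h4, h5, h6, fun h => absurd h hε⟩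
  obtain ⟨p, hp, hp2⟩ := proj T g
  obtain ⟨z, -, z2, z3⟩ := flat (insert (g - p) T)
  have hz : 0 < ‖z‖ := norm_pos_iff.2 z2
  set δ := ε / 4 / ‖z‖ with hδ
  have hδ0 : 0 < δ := by positivity
  set r := g - p + δ • z with hr
  have hrT : ∀ t ∈ T, inner ℝ (J t) (J r) = 0 := by
    intro t ht
    rw [hr, map_add, map_smul, inner_add_right, inner_smul_right, hp2 t ht,
      z3 t (Finset.mem_insert_of_mem ht)]
    ring
  have hr0 : r ≠ 0 := by
    intro h
    have h1 : inner ℝ (J r) (J z) = δ * ‖J z‖ ^ 2 := by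
      rw [hr, map_add, map_smul, inner_add_left, real_inner_smul_left,
        z3 _ (Finset.mem_insert_self _ _), real_inner_self_eq_norm_sq, zero_add]
    rw [h, map_zero, inner_zero_left] at h1
    have := J_pos z2
    have : 0 < δ * ‖J z‖ ^ 2 := by positivity
    linarith
  obtain ⟨w, w1, w2, w3⟩ := flat (insert 1 (insert r T))
  have hw := J_pos w2
  have hw' : 0 < ‖w‖ := norm_pos_iff.2 w2
  obtain ⟨s, s1, s2, s3⟩ := spike (insert w (insert 1 (insert r T)))
    (ε / 4 / ‖w‖ * ‖J w‖ / (|r 0| + 1)) (by positivity)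
  set a := ‖J s‖ / ‖J w‖ with ha
  have ha0 : 0 ≤ a := by positivity
  have e1 : inner ℝ (J w) (J s) = 0 := s3 _ (by simp)
  have e2 : inner ℝ (J r) (J s) = 0 := s3 _ (by simp)
  have e3 : inner ℝ (J r) (J w) = 0 := w3 _ (by simp)
  have e4 : inner ℝ (J s) (J w) = 0 := by rw [real_inner_comm, e1]
  refine ⟨r - r 0 • (s - a • w), s + a • w, ?_, ?_, ?_, ?_, ?_, ?_, fun _ => ⟨p, hp, r 0, ?_⟩⟩
  · intro h
    have h1 : inner ℝ (J r) (J (r - r 0 • (s - a • w))) = ‖J r‖ ^ 2 := by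
      simp only [map_sub, map_smul, inner_sub_right, inner_smul_right, e2, e3,
        real_inner_self_eq_norm_sq]
      ring
    rw [h, map_zero, inner_zero_right] at h1
    have := J_pos hr0
    have : 0 < ‖J r‖ ^ 2 := by positivity
    linarith
  · intro h
    have := congrArg (fun f : C(I, ℝ) => f 0) h
    simp [s1, w1] at this
  · simp only [map_sub, map_add, map_smul, inner_sub_left, inner_add_right, inner_smul_right,
      real_inner_smul_left, e1, e2, e3, e4, real_inner_self_eq_norm_sq]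
    rw [ha]
    field_simp
    ring
  · intro t ht
    have f1 : inner ℝ (J t) (J s) = 0 := s3 _ (by simp [ht])
    have f2 : inner ℝ (J t) (J w) = 0 := w3 _ (by simp [ht])
    simp only [map_sub, map_add, map_smul, inner_sub_right, inner_add_right, inner_smul_right,
      f1, f2, hrT t ht]
    simp
  · simp [s1, w1]
  · have f1 : inner ℝ (J 1) (J s) = 0 := s3 _ (by simp)
    have f2 : inner ℝ (J 1) (J w) = 0 := w3 _ (by simp)
    rw [map_add, map_smul, inner_add_right, inner_smul_right, f1, f2]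
    simp
  · have : g - (p + (r - r 0 • (s - a • w)) + r 0 • (s + a • w)) =
        -(δ • z) - (2 * r 0 * a) • w := by
      rw [hr]
      generalize (g - p + δ • z) 0 = ρ
      module
    rw [this]
    refine (norm_sub_le _ _).trans_lt ?_
    rw [norm_neg, norm_smul, norm_smul, Real.norm_eq_abs, Real.norm_eq_abs, abs_of_pos hδ0,
      abs_mul, abs_mul, abs_of_nonneg ha0, abs_two]
    have h1 : δ * ‖z‖ = ε / 4 := by rw [hδ]; field_simp
    have h2 : a * ‖w‖ * (|r 0| + 1) < ε / 4 := by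
      rw [lt_div_iff₀ (by positivity)] at s2
      rw [ha]
      calc ‖J s‖ / ‖J w‖ * ‖w‖ * (|r 0| + 1) = ‖J s‖ * (|r 0| + 1) * (‖w‖ / ‖J w‖) := by ring
        _ < ε / 4 / ‖w‖ * ‖J w‖ * (‖w‖ / ‖J w‖) := by gcongr
        _ = _ := by field_simp
    have : 0 ≤ a * ‖w‖ := by positivity
    nlinarith

theorem result : ∃ φ : ℕ → C(I, ℝ), (∀ n, φ n ≠ 0) ∧
    (∀ n m, n ≠ m → ∫ x, φ n x * φ m x = 0) ∧
    Dense (Submodule.span ℝ (Set.range φ) : Set C(I, ℝ)) ∧
    ∃ f : C(I, ℝ), ∀ c : ℕ → ℕ → ℝ, ¬ USummable φ c f := by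
  classical
  choose U V hU hV hUV hT hU0 hV1 happ using step
  let g : ℕ → C(I, ℝ) := fun n => TopologicalSpace.denseSeq C(I, ℝ) n.unpair.1
  let ε : ℕ → ℝ := fun n => 1 / ((n.unpair.2 : ℝ) + 1)
  let T : ℕ → Finset C(I, ℝ) := fun n => Nat.rec ∅
    (fun k Tk => insert (U Tk (g k) (ε k)) (insert (V Tk (g k) (ε k)) Tk)) n
  have hTs : ∀ n, T (n + 1) = insert (U (T n) (g n) (ε n)) (insert (V (T n) (g n) (ε n)) (T n)) :=
    fun n => rfl
  let φ : ℕ → C(I, ℝ) := fun n =>
    if n % 2 = 0 then U (T (n / 2)) (g (n / 2)) (ε (n / 2)) else V (T (n / 2)) (g (n / 2)) (ε (n / 2))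
  have h0 : ∀ k, φ (2 * k) = U (T k) (g k) (ε k) := by
    intro k; simp [φ]
  have h1 : ∀ k, φ (2 * k + 1) = V (T k) (g k) (ε k) := by
    intro k
    have : (2 * k + 1) / 2 = k := by omega
    simp [φ, this]
  have hmono : Monotone T := monotone_nat_of_le_succ fun n x hx => by
    rw [hTs]; simp [hx]
  have hmem : ∀ n, φ n ∈ T (n / 2 + 1) := by
    intro n
    rw [hTs]
    simp only [φ]
    split_ifs <;> simp
  have hsub : ∀ k : ℕ, (SetLike.coe (T k) : Set C(I, ℝ)) ⊆ Set.range φ := by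
    intro k
    induction k with
    | zero => simp [T]
    | succ k ih =>
      rw [hTs]
      push_cast
      exact Set.insert_subset ⟨_, h0 k⟩ (Set.insert_subset ⟨_, h1 k⟩ ih)
  have horth : ∀ n m, n < m → inner ℝ (J (φ n)) (J (φ m)) = 0 := by
    intro n m h
    by_cases h2 : n / 2 < m / 2
    · have := hT (T (m / 2)) (g (m / 2)) (ε (m / 2)) _ (hmono (Nat.succ_le_of_lt h2) (hmem n))
      simp only [φ] at this ⊢
      split_ifs with _ h3 h3 <;> simp_all
    · obtain ⟨k, rfl, rfl⟩ : ∃ k, n = 2 * k ∧ m = 2 * k + 1 := ⟨n / 2, by omega, by omega⟩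
      rw [h0, h1]; exact hUV _ _ _
  refine ⟨φ, fun n => ?_, fun n m h => ?_, ?_, 1, ?_⟩
  · simp only [φ]; split_ifs
    exacts [hU _ _ _, hV _ _ _]
  · rw [← inner_J]
    rcases lt_or_gt_of_ne h with h | h
    · exact horth _ _ h
    · rw [real_inner_comm]; exact horth _ _ h
  · refine Metric.dense_iff.2 fun f r hr => ?_
    obtain ⟨i, hi⟩ := Metric.denseRange_iff.1 (TopologicalSpace.denseRange_denseSeq C(I, ℝ)) f
      (r / 2) (by positivity)
    obtain ⟨j, hj⟩ := exists_nat_one_div_lt (show 0 < r / 2 by positivity)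
    obtain ⟨p, hp, ρ, h⟩ := happ (T (Nat.pair i j)) (g (Nat.pair i j)) (ε (Nat.pair i j))
      (by positivity)
    rw [← h0, ← h1] at h
    refine ⟨p + φ (2 * Nat.pair i j) + ρ • φ (2 * Nat.pair i j + 1), ?_, ?_⟩
    · simp only [g, ε, Nat.unpair_pair] at h
      rw [← dist_eq_norm] at h
      rw [Metric.mem_ball, dist_comm]
      linarith [dist_triangle f (TopologicalSpace.denseSeq C(I, ℝ) i)
        (p + φ (2 * Nat.pair i j) + ρ • φ (2 * Nat.pair i j + 1))]
    · exact add_mem (add_mem (Submodule.span_mono (hsub _) hp) (Submodule.subset_span ⟨_, rfl⟩))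
        (Submodule.smul_mem _ _ (Submodule.subset_span ⟨_, rfl⟩))
  · rintro c ⟨τ, hτ, hτ2⟩
    have hc : ∀ n, coef φ 1 n * φ n 0 = 0 := by
      intro n
      unfold coef
      rw [← inner_J]
      simp only [φ]
      split_ifs
      · rw [hU0, mul_zero]
      · rw [hV1]; simp
    have hS : ∀ N, S φ 1 N 0 = 0 := by
      intro N
      simp [S, hc]
    have hev : Continuous fun f : C(I, ℝ) => f 0 := continuous_eval_const 0
    have h3 : ∀ m, τ m 0 = 0 := by
      intro m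
      have := (hev.tendsto _).comp (hτ m)
      simp only [Function.comp_def, ContinuousMap.coe_sum, Finset.sum_apply, ContinuousMap.coe_smul,
        Pi.smul_apply, hS, smul_zero, Finset.sum_const_zero] at this
      exact (tendsto_const_nhds_iff.1 this).symm
    have := (hev.tendsto _).comp hτ2
    simp [Function.comp_def, h3] at this

end Pool.Agent.Results.MP_ae49d3_an.No
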